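import Pool.Agent.H376R4.Thin4

/-!
# Thin spaces: no infinite set of isolated points converges
-/

set_option autoImplicit false

open Set Topology Filter Function Pool.Agent.H376R4

universe u

namespace Pool.Agent.Helper311_thin

variable {S : Type u} [TopologicalSpace S]

theorem acc_sub_of_lm {X L : Set S} (hL : IsClosed L) (h : X ⊆ L) : Acc X ⊆ L :=
  acc_subset hL h

/-- If one countably infinite set of isolated points converges to some point, then in a thin
homogeneous `T1` space we reach a contradiction. -/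
theorem lm_empty [T1Space S] (hS : Thin S) (hom : ∀ x y : S, ∃ h : S ≃ₜ S, h x = y)
    {D0 : Set S} (hi0 : D0.Infinite) (hc0 : D0.Countable) (hD0 : Iso D0) : Lm D0 = ∅ := by
  by_contra hne
  have hsub : ∀ D D' : Set S, D.Infinite → D.Countable → Iso D → D' ⊆ D → D'.Infinite →
      Lm D' = Lm D := by
    intro D D' hi hc hD hs hi'
    exact Subset.antisymm (lm_rigid hS hi hc hD hi' (hc.mono hs) (hD.sub hs) (Lm.anti hs))
      (Lm.anti hs)
  -- all limit sets agree
  have key : ∀ E E' : Set S, E.Infinite → E.Countable → Iso E → E'.Infinite → E'.Countable →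
      Iso E' → Lm E ⊆ Lm E' := by
    intro E E' hEi hEc hE hEi' hEc' hE'
    by_contra hcon
    obtain ⟨d, hdE, hdE'⟩ := not_subset.1 hcon
    obtain ⟨U, hU, hdU, hinf⟩ : ∃ U, IsOpen U ∧ d ∈ U ∧ (E' \ U).Infinite := by
      by_contra hcon2
      apply hdE'
      intro V hV
      obtain ⟨W, hWV, hW, hdW⟩ := mem_nhds_iff.1 hV
      by_contra hf
      exact hcon2 ⟨W, hW, hdW, fun hf2 => hf (hf2.subset (sdiff_subset_sdiff_right hWV))⟩
    set E2 := E' \ U with hE2
    have hE2i : E2.Infinite := hinf
    have hE2c : E2.Countable := hEc'.mono sdiff_subset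
    have hE2s : Iso E2 := hE'.sub sdiff_subset
    have hLE2 : Lm E2 = Lm E' := hsub E' E2 hEi' hEc' hE' sdiff_subset hinf
    set E1 := E ∩ U with hE1
    have hE1f : (E \ U).Finite := hdE U (hU.mem_nhds hdU)
    have hE1i : E1.Infinite := by
      intro hf
      apply hEi
      refine (hf.union hE1f).subset ?_
      intro x hx
      by_cases hxU : x ∈ U
      · exact Or.inl ⟨hx, hxU⟩
      · exact Or.inr ⟨hx, hxU⟩
    have hE1c : E1.Countable := hEc.mono inter_subset_left
    have hE1s : Iso E1 := hE.sub inter_subset_left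
    have hLE1 : Lm E1 = Lm E := hsub E E1 hEi hEc hE inter_subset_left hE1i
    have hne12 : Lm E1 ≠ Lm E2 := by
      intro h
      rw [hLE1, hLE2] at h
      exact hdE' (h ▸ hdE)
    -- a union of infinite pieces is never a set of isolated points
    have nounion : ∀ X Y : Set S, X ⊆ E2 → X.Infinite → Y ⊆ E1 → Y.Infinite → ¬ Iso (X ∪ Y) := by
      intro X Y hX hXi hY hYi hiso
      have h1 : (X ∪ Y).Infinite := hXi.mono subset_union_left
      have h2 : (X ∪ Y).Countable := (hE2c.mono hX).union (hE1c.mono hY)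
      have h3 := hsub _ X h1 h2 hiso subset_union_left hXi
      have h4 := hsub _ Y h1 h2 hiso subset_union_right hYi
      have h5 := hsub E2 X hE2i hE2c hE2s hX hXi
      have h6 := hsub E1 Y hE1i hE1c hE1s hY hYi
      exact hne12 (by rw [← h6, ← h5, h4, h3])
    -- almost all points of `E2` are accumulation points of `Y`
    have fin1 : ∀ Y : Set S, Y ⊆ E1 → Y.Infinite → (E2 \ Acc Y).Finite := by
      intro Y hY hYi
      by_contra hf
      refine nounion (E2 \ Acc Y) Y sdiff_subset hf hY hYi ?_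
      rintro x (hx | hx) hxa
      · rcases Acc.union _ _ hxa with h1 | h1
        · exact hE2s x hx.1 (Acc.mono sdiff_subset h1)
        · exact hx.2 h1
      · rcases Acc.union _ _ hxa with h1 | h1
        · refine notMem_acc.2 ⟨U, hU, (hY hx).2, ?_⟩ h1
          refine finite_empty.subset ?_
          rintro y ⟨hyU, hy⟩
          exact hy.1.2 hyU
        · exact hE1s x (hY hx) (Acc.mono hY h1)
    -- pseudo-intersection argument
    have fin2 : (E2 \ Lm E1).Finite := by
      by_contra hf
      have hfc : (E2 \ Lm E1).Countable := hE2c.mono sdiff_subset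
      obtain ⟨x, hx⟩ := hfc.exists_eq_range (Set.Infinite.nonempty hf)
      have hxm : ∀ n, x n ∈ E2 \ Lm E1 := fun n => by rw [hx]; exact mem_range_self n
      have step : ∀ (n : ℕ) (Y : {Y : Set S // Y ⊆ E1 ∧ Y.Infinite}),
          ∃ Y' : {Y : Set S // Y ⊆ E1 ∧ Y.Infinite}, Y'.1 ⊆ Y.1 ∧ x n ∉ Acc Y'.1 := by
        rintro n ⟨Y, hY, hYi⟩
        have h1 : x n ∉ Lm Y := by
          rw [hsub E1 Y hE1i hE1c hE1s hY hYi]
          exact (hxm n).2
        obtain ⟨V, hV, hnf⟩ : ∃ V ∈ 𝓝 (x n), ¬ (Y \ V).Finite := by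
          by_contra hcon3
          apply h1
          intro V hV
          by_contra hf3
          exact hcon3 ⟨V, hV, hf3⟩
        refine ⟨⟨Y \ V, sdiff_subset.trans hY, hnf⟩, sdiff_subset, ?_⟩
        intro hacc
        apply hacc V hV
        refine finite_empty.subset ?_
        rintro y ⟨hyV, hy⟩
        exact hy.2 hyV
      choose nxt hn1 hn2 using step
      let g : ℕ → {Y : Set S // Y ⊆ E1 ∧ Y.Infinite} := fun n =>
        Nat.rec ⟨E1, Subset.rfl, hE1i⟩ (fun k G => nxt k G) n
      have hg : ∀ n, g (n+1) = nxt n (g n) := fun n => rfl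
      have hanti : Antitone (fun n => (g n).1) := antitone_nat_of_succ_le (fun n => by
        rw [hg]; exact hn1 n (g n))
      obtain ⟨Z, hZ0, hZi, hZc, hZf⟩ := pick_seq (fun n => (g n).1) hanti (fun n => (g n).2.2)
      have hZ1 : Z ⊆ E1 := hZ0.trans (g 0).2.1
      have hxZ : ∀ n, x n ∉ Acc Z := by
        intro n hacc
        have h1 : Z ⊆ (Z \ (g (n+1)).1) ∪ (g (n+1)).1 := by
          intro z hz
          by_cases hzg : z ∈ (g (n+1)).1
          · exact Or.inr hzg
          · exact Or.inl ⟨hz, hzg⟩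
        rcases Acc.union _ _ (Acc.mono h1 hacc) with h2 | h2
        · rw [acc_finite (hZf (n+1))] at h2
          exact h2
        · rw [hg] at h2
          exact hn2 n (g n) h2
      have h3 := fin1 Z hZ1 hZi
      apply hf
      refine h3.subset ?_
      intro y hy
      refine ⟨hy.1, ?_⟩
      have hy' : y ∈ range x := by rw [← hx]; exact hy
      obtain ⟨n, rfl⟩ := hy'
      exact hxZ n
    have h3i : (E2 ∩ Lm E1).Infinite := by
      intro hf
      apply hE2i
      refine (hf.union fin2).subset ?_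
      intro y hy
      by_cases hyl : y ∈ Lm E1
      · exact Or.inl ⟨hy, hyl⟩
      · exact Or.inr ⟨hy, hyl⟩
    have h4 : Lm (E2 ∩ Lm E1) = Lm E2 := hsub E2 _ hE2i hE2c hE2s inter_subset_left h3i
    have h5 : Lm E2 ⊆ Lm E1 := by
      rw [← h4]
      exact (Lm.subset_acc h3i).trans (acc_subset (isClosed_lm E1) inter_subset_right)
    have h6 := lm_rigid hS hE2i hE2c hE2s hE1i hE1c hE1s h5
    exact hne12 (Subset.antisymm h6 h5)
  obtain ⟨p, hp⟩ := nonempty_iff_ne_empty.2 hne
  obtain ⟨q, hq⟩ := hi0.nonempty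
  obtain ⟨h, hh⟩ := hom p q
  have hi1 : (h '' D0).Infinite := hi0.image h.injective.injOn
  have h1 := key (h '' D0) D0 hi1 (hc0.image _) (hD0.image h) hi0 hc0 hD0
  have h2 : q ∈ Lm (h '' D0) := by
    rw [lm_image_eq]
    exact ⟨p, hp, hh⟩
  exact hD0 q hq (Lm.subset_acc hi0 (h1 h2))

end Pool.Agent.Helper311_thin
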