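import Pool.Agent.H376R4.Thin6
import Pool.Agent.Helper311_thin.F3

/-!
# Thin spaces in which every set with an accumulation point contains a good crowded set
-/

set_option autoImplicit false

open Set Topology Filter Function Pool.Agent.H376R4

universe u v

namespace Pool.Agent.Helper311_thin

variable {S : Type u} [TopologicalSpace S]

theorem ch_diag {ι : Type v} [LinearOrder ι] [WellFoundedLT ι] {E : ι → Set S} (h : Ch E)
    (hcg : ∀ C : Set S, (Acc C).Nonempty → ∃ E ⊆ C, CG E)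
    {Q : Set S} (hQ : Q ⊆ ⋃ i, E i) (hf : ∀ i, (Q ∩ E i).Finite) : Acc Q = ∅ := by
  by_contra hne
  obtain ⟨Y, hY, hYc⟩ := hcg Q (nonempty_iff_ne_empty.2 hne)
  obtain ⟨i, hi, _⟩ := h.cgt hYc (hY.trans hQ)
  exact hi ((hf i).subset (inter_subset_inter_left _ hY))


theorem ch_half {ι : Type v} [LinearOrder ι] [WellFoundedLT ι] [T1Space S] {E E' : ι → Set S}
    (h : Ch E) (h' : Ch E')
    (hcg : ∀ C : Set S, (Acc C).Nonempty → ∃ E ⊆ C, CG E)
    (f : ∀ i, E i ≃ E' i) (C : Set S) (hC : IsClosed C) :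
    ∃ C', IsClosed C' ∧ ∀ (i : ι) (a : E i), (a : S) ∈ C ↔ (f i a : S) ∈ C' := by
  have key : ∀ J : Set ι, (∀ i ∈ J, (C ∩ E i).Finite) →
      Acc {b : S | ∃ i ∈ J, ∃ a : E i, (a : S) ∈ C ∧ (f i a : S) = b} = ∅ := by
    intro J hJ
    apply ch_diag h' hcg
    · rintro b ⟨i, _, a, _, rfl⟩
      exact mem_iUnion.2 ⟨i, (f i a).2⟩
    · intro k
      by_cases hk : k ∈ J
      · refine (fin_img (f k) (hJ k hk)).subset ?_
        rintro b ⟨⟨i, hi, a, ha, rfl⟩, hb⟩
        have hik : i = k := by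
          by_contra hne
          exact disjoint_left.1 (h'.pd hne) (f i a).2 hb
        subst hik
        exact ⟨a, ha, rfl⟩
      · refine finite_empty.subset ?_
        rintro b ⟨⟨i, hi, a, ha, rfl⟩, hb⟩
        have hik : i = k := by
          by_contra hne
          exact disjoint_left.1 (h'.pd hne) (f i a).2 hb
        subst hik
        exact hk hi
  have kiff : ∀ (J : Set ι) (i : ι), i ∈ J → ∀ a : E i,
      (f i a : S) ∈ {b : S | ∃ i ∈ J, ∃ a : E i, (a : S) ∈ C ∧ (f i a : S) = b} ↔ (a : S) ∈ C := by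
    intro J i hi a
    constructor
    · rintro ⟨k, hk, a', ha', he⟩
      have hik : k = i := by
        by_contra hne
        exact disjoint_left.1 (h'.pd hne) (f k a').2 (he ▸ (f i a).2)
      subst hik
      have := (f k).injective (Subtype.ext he)
      rwa [this] at ha'
    · intro ha
      exact ⟨i, hi, a, ha, rfl⟩
  by_cases hfin : ∀ i, (C ∩ E i).Finite
  · refine ⟨_, isClosed_of_acc_subset (by rw [key univ (fun i _ => hfin i)]; exact empty_subset _),
      fun i a => (kiff univ i (mem_univ _) a).symm⟩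
  · have hne : {i | (C ∩ E i).Infinite}.Nonempty := by
      by_contra hcon
      apply hfin
      intro i
      by_contra hi
      exact hcon ⟨i, hi⟩
    have wf : WellFounded (fun a b : ι => a < b) := wellFounded_lt
    set i0 := wf.min _ hne with hi0
    have h1 : (C ∩ E i0).Infinite := wf.min_mem _ hne
    have h2 : ∀ j, j < i0 → (C ∩ E j).Finite := by
      intro j hj
      by_contra hinf
      exact wf.not_lt_min _ hinf hj
    have h3 : Acc (E i0) ⊆ C := (h.cg i0).1.acc_subset_of_inter hC h1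
    refine ⟨Acc (E' i0) ∪ _, (isClosed_acc _).union
      (isClosed_of_acc_subset (by rw [key (Iio i0) (fun i hi => h2 i hi)]; exact empty_subset _)),
      fun i a => ?_⟩
    by_cases hi : i < i0
    · constructor
      · intro ha
        exact Or.inr ((kiff (Iio i0) i hi a).2 ha)
      · rintro (ha | ha)
        · exact absurd ha (disjoint_left.1 (h'.dis i i0 hi) (f i a).2)
        · exact (kiff (Iio i0) i hi a).1 ha
    · have hi' := not_lt.1 hi
      exact ⟨fun _ => Or.inl (h'.anti' hi' ((h'.cg i).2 (f i a).2)),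
        fun _ => h3 (h.anti' hi' ((h.cg i).2 a.2))⟩


theorem ch_homeo {ι : Type v} [LinearOrder ι] [WellFoundedLT ι] [T1Space S] {E E' : ι → Set S}
    (h : Ch E) (h' : Ch E')
    (hcg : ∀ C : Set S, (Acc C).Nonempty → ∃ E ⊆ C, CG E) :
    Nonempty ((⋃ i, E i : Set S) ≃ₜ (⋃ i, E' i : Set S)) := by
  have f : ∀ i, E i ≃ E' i := fun i => (exists_equiv (h.cg i).1.1 (h.cg i).1.2.1 (h'.cg i).1.1
    (h'.cg i).1.2.1).some
  let e1 := Equiv.ofBijective (sigmaToiUnion E) (sigmaToiUnion_bijective E h.pd)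
  let e2 := Equiv.ofBijective (sigmaToiUnion E') (sigmaToiUnion_bijective E' h'.pd)
  let φ := e1.symm.trans ((Equiv.sigmaCongrRight f).trans e2)
  have hφ : ∀ (i : ι) (a : E i), (φ (e1 ⟨i, a⟩) : S) = f i a := by
    intro i a
    simp only [φ, Equiv.trans_apply, Equiv.symm_apply_apply]
    rfl
  have he : ∀ (i : ι) (a : E i), (e1 ⟨i, a⟩ : S) = a := fun i a => rfl
  apply mkHomeo φ
  · intro C hC
    obtain ⟨C', hC', hh⟩ := ch_half h h' hcg f C hC
    refine ⟨C', hC', fun a => ?_⟩
    obtain ⟨⟨i, a⟩, rfl⟩ := e1.surjective a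
    rw [hφ, he]
    exact hh i a
  · intro C' hC'
    obtain ⟨C, hC, hh⟩ := ch_half h' h hcg (fun i => (f i).symm) C' hC'
    refine ⟨C, hC, fun a => ?_⟩
    obtain ⟨⟨i, a⟩, rfl⟩ := e1.surjective a
    rw [hφ, he]
    have := hh i (f i a)
    rw [Equiv.symm_apply_apply] at this
    exact this.symm


theorem ch_conj {ι : Type v} [LinearOrder ι] [WellFoundedLT ι] [T1Space S] (hS : Thin S)
    {E E' : ι → Set S} (h : Ch E) (h' : Ch E')
    (hcg : ∀ C : Set S, (Acc C).Nonempty → ∃ E ⊆ C, CG E) :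
    ∃ k : S ≃ₜ S, ∀ i, k '' Acc (E i) = Acc (E' i) := by
  obtain ⟨k, hk⟩ := hS _ _ (ch_homeo h h' hcg)
  have hk' : k.symm '' (⋃ i, E' i) = ⋃ i, E i := by
    rw [← hk, ← image_comp]
    have h2 : (k.symm ∘ k : S → S) = id := by funext x; simp
    rw [h2, image_id]
  have hsym : ∀ X : Set S, k.symm '' (k '' X) = X := by
    intro X
    rw [← image_comp]
    have h2 : (k.symm ∘ k : S → S) = id := by funext x; simp
    rw [h2, image_id]
  have s1 : ∀ i, ∃ j, k '' Acc (E i) = Acc (E' j) := by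
    intro i
    obtain ⟨j, _, hj⟩ := h'.cgt ((h.cg i).image k) (by
      rw [← hk]; exact image_mono (subset_iUnion E i))
    exact ⟨j, by rw [← hj, acc_image]⟩
  have s2 : ∀ i, ∃ j, k.symm '' Acc (E' i) = Acc (E j) := by
    intro i
    obtain ⟨j, _, hj⟩ := h.cgt ((h'.cg i).image k.symm) (by
      rw [← hk']; exact image_mono (subset_iUnion E' i))
    exact ⟨j, by rw [← hj, acc_image]⟩
  choose σ hσ using s1
  choose τ hτ using s2
  have m1 : StrictMono σ := by
    intro a b hab
    rw [← h'.ss, ← hσ, ← hσ]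
    exact image_ssub k (h.ss.2 hab)
  have m2 : StrictMono τ := by
    intro a b hab
    rw [← h.ss, ← hτ, ← hτ]
    exact image_ssub k.symm (h'.ss.2 hab)
  refine ⟨k, fun i => ?_⟩
  have h1 : i ≤ σ i := m1.le_apply
  have h2 : σ i ≤ τ (σ i) := m2.le_apply
  have h3 : Acc (E (τ (σ i))) = Acc (E i) := by
    rw [← hτ, ← hσ, hsym]
  have h4 : τ (σ i) = i := by
    by_contra hne
    rcases lt_or_gt_of_ne hne with h5 | h5
    · have := h.ss.2 h5
      rw [h3] at this
      exact this.2 this.1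
    · have := h.ss.2 h5
      rw [h3] at this
      exact this.2 this.1
  have h5 : σ i = i := le_antisymm (h2.trans h4.le) h1
  rw [hσ, h5]


theorem str_conj2 {ι : Type v} [LinearOrder ι] [WellFoundedLT ι] [T1Space S] (hS : Thin S)
    (hcg : ∀ C : Set S, (Acc C).Nonempty → ∃ E ⊆ C, CG E)
    {E E' : ι → Set S} (h1 : ∀ i, CG (E i)) (h2 : ∀ i j, i < j → Acc (E j) ⊂ Acc (E i))
    (h1' : ∀ i, CG (E' i)) (h2' : ∀ i j, i < j → Acc (E' j) ⊂ Acc (E' i)) :
    ∃ k : S ≃ₜ S, ∀ i, k '' Acc (E i) = Acc (E' i) := by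
  have norm : ∀ E : ι → Set S, (∀ i, CG (E i)) → (∀ i j, i < j → Acc (E j) ⊂ Acc (E i)) →
      ∃ D : ι → Set S, Ch D ∧ ∀ i, Acc (D i) = Acc (E i) := by
    intro E h1 h2
    have hone : ∀ i, ∃ D : Set S, CG D ∧ Acc D = Acc (E i) ∧
        ∀ j, i < j → Disjoint D (Acc (E j)) := by
      intro i
      by_cases hj : ∃ j, i < j
      · have wf : WellFounded (fun a b : ι => a < b) := wellFounded_lt
        set s := wf.min {j | i < j} hj with hs
        have hs1 : i < s := wf.min_mem {j | i < j} hj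
        have hs2 : ∀ j, i < j → s ≤ j := fun j hj' => not_lt.1 (wf.not_lt_min {j | i < j} hj')
        obtain ⟨h3, h4⟩ := sp_norm (h1 i) (h1 s) (h2 i s hs1)
        refine ⟨_, h3.e, h4, fun j hij => h3.dis.mono_right ?_⟩
        rcases (hs2 j hij).lt_or_eq with h5 | h5
        · exact (h2 s j h5).1
        · rw [h5]
      · exact ⟨E i, h1 i, rfl, fun j hij => absurd ⟨j, hij⟩ hj⟩
    choose D hD1 hD2 hD3 using hone
    refine ⟨D, ⟨hD1, ?_, ?_⟩, hD2⟩
    · intro i j hij
      rw [hD2, hD2]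
      exact (h2 i j hij).1
    · intro i j hij
      rw [hD2]
      exact hD3 i j hij
  obtain ⟨D, hD, hD2⟩ := norm E h1 h2
  obtain ⟨D', hD', hD2'⟩ := norm E' h1' h2'
  obtain ⟨k, hk⟩ := ch_conj hS hD hD' hcg
  refine ⟨k, fun i => ?_⟩
  rw [← hD2, ← hD2', hk]


theorem ord_conj2 [T1Space S] (hS : Thin S)
    (hcg : ∀ C : Set S, (Acc C).Nonempty → ∃ E ⊆ C, CG E) (μ : Ordinal.{u})
    {E E' : Ordinal.{u} → Set S} (h1 : ∀ i, i < μ → CG (E i))
    (h2 : ∀ i j, i < j → j < μ → Acc (E j) ⊂ Acc (E i))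
    (h1' : ∀ i, i < μ → CG (E' i)) (h2' : ∀ i j, i < j → j < μ → Acc (E' j) ⊂ Acc (E' i)) :
    ∃ k : S ≃ₜ S, ∀ i, i < μ → k '' Acc (E i) = Acc (E' i) := by
  obtain ⟨k, hk⟩ := str_conj2 (S := S) (ι := Iio μ) hS hcg (E := fun i => E i.1)
    (E' := fun i => E' i.1) (fun i => h1 i.1 i.2) (fun i j hij => h2 i.1 j.1 hij j.2)
    (fun i => h1' i.1 i.2) (fun i j hij => h2' i.1 j.1 hij j.2)
  exact ⟨k, fun i hi => hk ⟨i, hi⟩⟩


theorem no_strict2 [T1Space S] (hS : Thin S)
    (hcg : ∀ C : Set S, (Acc C).Nonempty → ∃ E ⊆ C, CG E)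
    {E F : Set S} (hE : CG E) (hF : CG F) (h : Acc F ⊂ Acc E) : False := by
  classical
  have nomin : ∀ G : Set S, CG G → ∃ G' : Set S, CG G' ∧ Acc G' ⊂ Acc G := by
    intro G hG
    obtain ⟨k, hk⟩ := cg_conj hS hE hG
    refine ⟨k '' F, hF.image k, ?_⟩
    have := image_ssub k h
    rwa [← acc_image, ← acc_image, hk] at this
  obtain ⟨α, a1, a2, a3⟩ := seq_max (S := S) CG
  obtain ⟨α', b1, b2, b3⟩ := seq_max (S := S) (fun G => CG G ∧ Acc F ⊂ Acc G)
  set X := seqE (S := S) CG with hX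
  set Y := seqE (S := S) (fun G => CG G ∧ Acc F ⊂ Acc G) with hY
  rcases le_or_gt α α' with hle | hlt
  · obtain ⟨G0, hG0, hG0'⟩ : ∃ G0, CG G0 ∧ ∀ β, β < α → H376R4.Acc G0 ⊂ Acc (Y β) := by
      rcases hle.lt_or_eq with h1 | h1
      · exact ⟨Y α, (b1 α h1).1, fun β hβ => b2 β α hβ h1⟩
      · exact ⟨F, hF, fun β hβ => (b1 β (h1 ▸ hβ)).2⟩
    obtain ⟨k, hk⟩ := ord_conj2 hS hcg α (E := Y) (E' := X)
      (fun i hi => (b1 i (hi.trans_le hle)).1) (fun i j hij hj => b2 i j hij (hj.trans_le hle))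
      a1 a2
    apply a3
    refine ⟨k '' G0, hG0.image k, fun β hβ => ?_⟩
    have := image_ssub k (hG0' β hβ)
    rwa [hk β hβ, ← acc_image] at this
  · obtain ⟨H, hH, hH'⟩ := nomin (X α') (a1 α' hlt)
    obtain ⟨k, hk⟩ := ord_conj2 hS hcg (Order.succ α')
      (E := fun β => if β = α' then H else X β) (E' := fun β => if β = α' then F else Y β)
      (by
        intro i hi
        by_cases hia : i = α'
        · simp only [hia, if_true]; exact hH
        · simp only [hia, if_false]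
          exact a1 i ((Order.lt_succ_iff.1 hi).trans_lt hlt))
      (by
        intro i j hij hj
        have hj' := Order.lt_succ_iff.1 hj
        have hia : i ≠ α' := (hij.trans_le hj').ne
        simp only [hia, if_false]
        by_cases hja : j = α'
        · simp only [hja, if_true]
          exact hH'.trans (a2 i α' (hja ▸ hij) hlt)
        · simp only [hja, if_false]
          exact a2 i j hij (hj'.trans_lt hlt))
      (by
        intro i hi
        by_cases hia : i = α'
        · simp only [hia, if_true]; exact hF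
        · simp only [hia, if_false]
          exact (b1 i (lt_of_le_of_ne (Order.lt_succ_iff.1 hi) hia)).1)
      (by
        intro i j hij hj
        have hj' := Order.lt_succ_iff.1 hj
        have hia : i < α' := hij.trans_le hj'
        simp only [hia.ne, if_false]
        by_cases hja : j = α'
        · simp only [hja, if_true]
          exact (b1 i hia).2
        · simp only [hja, if_false]
          exact b2 i j hij (lt_of_le_of_ne hj' hja))
    have hk1 : k '' Acc H = Acc F := by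
      have := hk α' (Order.lt_succ α')
      simpa using this
    have hk2 : ∀ β, β < α' → k '' Acc (X β) = Acc (Y β) := by
      intro β hβ
      have := hk β (hβ.trans (Order.lt_succ α'))
      simpa [hβ.ne] using this
    apply b3
    refine ⟨k '' X α', ⟨(a1 α' hlt).image k, ?_⟩, fun β hβ => ?_⟩
    · have := image_ssub k hH'
      rwa [hk1, ← acc_image] at this
    · have := image_ssub k (a2 β α' hβ hlt)
      rwa [hk2 β hβ, ← acc_image] at this


theorem flat2 [T1Space S] (hS : Thin S)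
    (hcg : ∀ C : Set S, (Acc C).Nonempty → ∃ E ⊆ C, CG E)
    (hns : ∀ E F : Set S, CG E → CG F → Acc F ⊆ Acc E → Acc E ⊆ Acc F) {E : Set S} (hE : CG E) :
    False := by
  have hAc := isClosed_acc E
  have hprop : ∀ C, IsClosed C → C ⊆ Acc E → C ≠ Acc E → Acc C = ∅ := by
    intro C hC hCE hne
    by_contra hcon
    obtain ⟨F, hFC, hF⟩ := hcg _ (nonempty_iff_ne_empty.2 hcon)
    have h1 : Acc F ⊆ C := acc_subset hC hFC
    exact hne (Subset.antisymm hCE ((hns E F hE hF (h1.trans hCE)).trans h1))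
  obtain ⟨D, hDA, hDi, hDc, hP⟩ : ∃ D ⊆ Acc E, D.Infinite ∧ D.Countable ∧
      ∀ X Y : Set S, X ⊆ Y ∪ D → (Y.Finite → X.Finite) → Y ⊆ Acc E → Acc Y = ∅ → Acc X = ∅ := by
    by_cases hc : ∃ D' ⊆ Acc E, D'.Infinite ∧ Acc D' = ∅
    · obtain ⟨D', h1, h2, h3⟩ := hc
      obtain ⟨D, h4, h5, h6⟩ := h2.exists_subset_countable_infinite
      have hDe : Acc D = ∅ := subset_empty_iff.1 (h3 ▸ Acc.mono h4)
      refine ⟨D, h4.trans h1, h6, h5, ?_⟩
      intro X Y hX _ _ hY
      apply subset_empty_iff.1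
      refine (Acc.mono hX).trans ((Acc.union _ _).trans ?_)
      rw [hY, hDe, union_empty]
    · refine ⟨E, hE.2, hE.1.1, hE.1.2.1, ?_⟩
      intro X Y _ h2 h3 h4
      apply acc_finite
      apply h2
      by_contra hinf
      exact hc ⟨Y, h3, hinf, h4⟩
  obtain ⟨d0, hd0⟩ := hDi.nonempty
  have hDi' : (D \ {d0}).Infinite := hDi.sdiff (finite_singleton d0)
  obtain ⟨f⟩ := exists_equiv hDi hDc hDi' (hDc.mono sdiff_subset)
  have hd1 : Disjoint D (Acc E \ D) := disjoint_sdiff_right
  have hd2 : Disjoint (D \ {d0}) (Acc E \ D) := hd1.mono_left sdiff_subset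
  obtain ⟨φ, h1, h2, h3, h4⟩ := glueEquiv2 hd1 hd2 f (Equiv.refl _)
  have hsub1 : D ∪ (Acc E \ D) ⊆ Acc E := union_subset hDA sdiff_subset
  have hsub2 : (D \ {d0}) ∪ (Acc E \ D) ⊆ Acc E :=
    union_subset (sdiff_subset.trans hDA) sdiff_subset
  have hh : Nonempty ((D ∪ (Acc E \ D) : Set S) ≃ₜ ((D \ {d0}) ∪ (Acc E \ D) : Set S)) := by
    apply mkHomeo φ
    · apply sh_half hAc hsub1 φ _ hprop hP
      rintro ⟨a, ha | ha⟩
      · left
        rw [h1 a ha]
        exact (f ⟨a, ha⟩).2.1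
      · right
        rw [h2 a ha]
        rfl
    · intro C' hC'
      have hq : ∀ a, (φ.symm a : S) ∈ D ∨ (φ.symm a : S) = a := by
        rintro ⟨a, ha | ha⟩
        · left
          rw [h3 a ha]
          exact (f.symm ⟨a, ha⟩).2
        · right
          rw [h4 a ha]
          rfl
      obtain ⟨C, hC, hh⟩ := sh_half hAc hsub2 φ.symm hq hprop hP C' hC'
      refine ⟨C, hC, fun a => ?_⟩
      have := hh (φ a)
      rw [Equiv.symm_apply_apply] at this
      exact this.symm
  have hA : D ∪ (Acc E \ D) = Acc E := union_sdiff_cancel hDA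
  have hcl := closed_conj hS hh (by rw [hA]; exact hAc)
  have hE1 : (E \ {d0}).Infinite := hE.1.1.sdiff (finite_singleton d0)
  have hE2 : E \ {d0} ⊆ (D \ {d0}) ∪ (Acc E \ D) := by
    rintro e ⟨he1, he2⟩
    by_cases hed : e ∈ D
    · exact Or.inl ⟨hed, he2⟩
    · exact Or.inr ⟨hE.2 he1, hed⟩
  have h5 := acc_subset hcl hE2
  rw [hE.1.acc_eq sdiff_subset hE1] at h5
  rcases h5 (hDA hd0) with h6 | h6
  · exact h6.2 rfl
  · exact h6.2 hd0


/-- In a thin homogeneous sequential `T1` space every set with an accumulation point contains a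
countably infinite set with the cofinite topology. -/
theorem cg_of_acc_seq [T1Space S] [SequentialSpace S] (hS : Thin S)
    (hom : ∀ x y : S, ∃ h : S ≃ₜ S, h x = y) (C : Set S) (hC : (H376R4.Acc C).Nonempty) :
    ∃ E ⊆ C, CG E := by
  by_contra hno
  obtain ⟨p, hp⟩ := hC
  have hcl : ∀ B : Set S, B ⊆ C → IsClosed B := by
    intro B hB
    apply IsSeqClosed.isClosed
    intro s x hs hlim
    by_cases hfin : (range s).Finite
    · by_contra hxB
      have hx : x ∉ range s := by
        rintro ⟨n, rfl⟩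
        exact hxB (hs n)
      have h4 : (range s)ᶜ ∈ 𝓝 x := hfin.isClosed.isOpen_compl.mem_nhds hx
      have h3 := hlim h4
      rw [mem_map, mem_atTop_sets] at h3
      obtain ⟨N, hN⟩ := h3
      exact hN N le_rfl ⟨N, rfl⟩
    · exfalso
      have hLm : x ∈ Lm (range s) := by
        intro V hV
        have h3 := hlim hV
        rw [mem_map, mem_atTop_sets] at h3
        obtain ⟨N, hN⟩ := h3
        refine ((finite_lt_nat N).image s).subset ?_
        rintro _ ⟨⟨m, rfl⟩, hm⟩
        refine ⟨m, ?_, rfl⟩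
        by_contra hlt
        exact hm (hN m (not_lt.1 hlt))
      have hsB : range s ⊆ C := by
        rintro _ ⟨n, rfl⟩
        exact hB (hs n)
      rcases iso_or_cg (range s) hfin with ⟨Y, hY, hi, hc, hiso⟩ | ⟨Y, hY, hcg⟩
      · have h5 := Lm.anti hY hLm
        rw [lm_empty hS hom hi hc hiso] at h5
        exact h5
      · exact hno ⟨Y, hY.trans hsB, hcg⟩
  have h1 := hcl (C \ {p}) sdiff_subset
  apply hp (C \ {p})ᶜ (h1.isOpen_compl.mem_nhds (fun h => h.2 rfl))
  refine (finite_singleton p).subset ?_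
  rintro y ⟨hy1, hy2⟩
  by_contra hne
  exact hy1 ⟨hy2, hne⟩

/-- A thin homogeneous `T1` space without isolated points is not sequential. -/
theorem no_seq [T1Space S] [SequentialSpace S] [Nonempty S] (hS : Thin S)
    (hom : ∀ x y : S, ∃ h : S ≃ₜ S, h x = y) (hni : ∀ x : S, ¬ IsOpen ({x} : Set S)) : False := by
  have hcg := cg_of_acc_seq hS hom
  obtain ⟨x⟩ := ‹Nonempty S›
  have hx : x ∈ H376R4.Acc (univ : Set S) := by
    intro U hU hf
    rw [inter_univ] at hf
    obtain ⟨V, hVU, hV, hxV⟩ := mem_nhds_iff.1 hU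
    apply hni x
    have h1 : IsOpen (V \ (V \ {x})) := hV.sdiff ((hf.subset hVU).subset sdiff_subset).isClosed
    convert h1 using 1
    ext y
    constructor
    · intro hy
      rw [mem_singleton_iff] at hy
      rw [hy]
      exact ⟨hxV, fun h => h.2 rfl⟩
    · rintro ⟨h2, h3⟩
      by_contra hne
      exact h3 ⟨h2, hne⟩
  obtain ⟨E, _, hE⟩ := hcg _ ⟨x, hx⟩
  apply flat2 hS hcg _ hE
  intro E' F' hE' hF' hsub
  by_contra hns
  exact no_strict2 hS hcg hE' hF' ⟨hsub, hns⟩

end Pool.Agent.Helper311_thin
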