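import Pool.Agent.Helper311_thin.F3
import Pool.Agent.R728.TH.Noeth

/-!
# Thin spaces: sequential compactness
-/

set_option autoImplicit false

open Set Topology Filter Function TopologicalSpace Pool.Agent.H376R4

universe u

namespace Pool.Agent.Helper311_thin

variable {S : Type u} [TopologicalSpace S]

/-- a space that is not Noetherian contains a countably infinite set of isolated points -/
theorem exists_iso_of_not_noeth [T1Space S] (hN : ¬ NoetherianSpace S) :
    ∃ D : Set S, D.Infinite ∧ D.Countable ∧ Iso D := by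
  have h1 : ¬ WellFoundedGT (Opens S) := hN
  rw [wellFoundedGT_iff_monotone_chain_condition] at h1
  push Not at h1
  obtain ⟨U, hU⟩ := h1
  choose v hv1 hv2 using hU
  -- a strictly increasing subsequence
  let g : ℕ → ℕ := fun n => Nat.rec 0 (fun _ k => v k) n
  have hg : ∀ n, g (n+1) = v (g n) := fun n => rfl
  have hlt : ∀ n, U (g n) < U (g (n+1)) := by
    intro n
    refine lt_of_le_of_ne (U.monotone ?_) ?_
    · rw [hg]; exact hv1 _
    · rw [hg]; exact hv2 _
  have hmono : StrictMono (fun n => U (g n)) := strictMono_nat_of_lt_succ hlt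
  have hx : ∀ n, ∃ x, x ∈ U (g (n+1)) ∧ x ∉ U (g n) := by
    intro n
    have := hlt n
    by_contra hcon
    push Not at hcon
    exact absurd (show U (g (n+1)) ≤ U (g n) from hcon) (not_le_of_gt this)
  choose x hx1 hx2 using hx
  have hne : ∀ n m, n < m → x n ≠ x m := by
    intro n m hnm he
    apply hx2 m
    rw [← he]
    exact hmono.monotone (Nat.succ_le_of_lt hnm) (hx1 n)
  have hinj : Injective x := by
    intro a b hab
    by_contra h
    rcases lt_or_gt_of_ne h with h1 | h1
    · exact hne a b h1 hab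
    · exact hne b a h1 hab.symm
  refine ⟨range x, infinite_range_of_injective hinj, countable_range x, ?_⟩
  rintro _ ⟨n, rfl⟩
  refine notMem_acc.2 ⟨U (g (n+1)), (U (g (n+1))).isOpen, hx1 n, ?_⟩
  refine ((finite_lt_nat (n+1)).image x).subset ?_
  rintro _ ⟨h2, m, rfl⟩
  refine ⟨m, ?_, rfl⟩
  by_contra hm
  have hm' : n + 1 ≤ m := not_lt.1 hm
  exact hx2 m (hmono.monotone hm' h2)

theorem no_seqCompact [T1Space S] [Infinite S] [SeqCompactSpace S] (hS : H376R4.Thin S)
    (hom : ∀ x y : S, ∃ h : S ≃ₜ S, h x = y) : False := by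
  obtain ⟨D, hDi, hDc, hD⟩ := exists_iso_of_not_noeth (R728.TH.not_noetherian_T1 (S := S) hS)
  have := hDi.to_subtype
  have := hDc.to_subtype
  obtain ⟨e⟩ := nonempty_equiv_of_countable (α := ℕ) (β := D)
  obtain ⟨a, φ, hφ, hlim⟩ := SeqCompactSpace.tendsto_subseq (fun n => (e n : S))
  have hinj : Injective (fun n => (e (φ n) : S)) := fun n m h =>
    hφ.injective (e.injective (Subtype.ext h))
  have hsub : range (fun n => (e (φ n) : S)) ⊆ D := by
    rintro _ ⟨n, rfl⟩
    exact (e (φ n)).2
  have hLm : a ∈ Lm (range (fun n => (e (φ n) : S))) := by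
    intro V hV
    have h3 := hlim hV
    rw [mem_map, mem_atTop_sets] at h3
    obtain ⟨N, hN⟩ := h3
    refine ((finite_lt_nat N).image (fun n => (e (φ n) : S))).subset ?_
    rintro _ ⟨⟨m, rfl⟩, hm⟩
    refine ⟨m, ?_, rfl⟩
    by_contra hlt
    exact hm (hN m (not_lt.1 hlt))
  rw [lm_empty hS hom (infinite_range_of_injective hinj) (countable_range _) (hD.sub hsub)] at hLm
  exact hLm

end Pool.Agent.Helper311_thin
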